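import Pool.Agent.V11318.OrdDP
import Pool.Agent.V11318.OrdNum
import Pool.Agent.V11318.OrdAna

/-!
For every positive integer `n` the number of distinct orders of elements of the symmetric group
`Sym(n)` is at most `exp (√n)`.
-/

set_option autoImplicit false

namespace Pool.Agent.Results.MP_bcad5b_nt.SymOrders

open Pool.Agent.V11318.Ord

theorem result (n : ℕ) (hn : 1 ≤ n) :
    ((Set.range (fun g : Equiv.Perm (Fin n) => orderOf g)).ncard : ℝ) ≤
      Real.exp (Real.sqrt n) := by
  have _ := hn
  rcases le_or_gt n 1024 with h1 | h1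
  · exact small n h1
  rcases le_or_gt n (57 ^ 2) with h2 | h2
  · exact cert 90 (10 ^ 20) 9 720 2046 3 32 chk1 n (by omega) (by omega) (by omega) (by omega)
  rcases le_or_gt n (148 ^ 2) with h3 | h3
  · exact cert 200 (10 ^ 20) 10 1600 3785 7 51 chk2 n (by omega) (by omega) (by omega) (by omega)
  rcases le_or_gt n (704 ^ 2) with h4 | h4
  · exact cert 850 (10 ^ 20) 12 6800 11990 29 145 chk3 n (by omega) (by omega) (by omega)
      (by omega)
  exact big n (by omega)

end Pool.Agent.Results.MP_bcad5b_nt.SymOrders
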